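import Mathlib
import Pool.Agent.H20.CubeDim

set_option autoImplicit false

namespace Pool.Agent.Results.MP_41989c_co.DensityOne

open Pool.Agent.H20.CubeDim

/-- The equality `dim(Q_d) = edim(Q_d)` holds for almost all `d`: an exceptional `d` is even and
satisfies `edim(Q_d) = dim(Q_{d-1}) = dim(Q_d) - 1`, and there are at most
`min (dim(Q_N), 9 N / log N)` exceptional `d` in `{1, ..., N}`; in particular they have natural
density zero. -/
theorem result :
    (∀ d : ℕ, metricDim (cube d) ≤ edgeMetricDim (cube (d + 1)) ∧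
      edgeMetricDim (cube (d + 1)) ≤ metricDim (cube (d + 1))) ∧
    (∀ d : ℕ, metricDim (cube (d + 1)) ≠ edgeMetricDim (cube (d + 1)) →
      Even (d + 1) ∧ edgeMetricDim (cube (d + 1)) = metricDim (cube d) ∧
        metricDim (cube (d + 1)) = metricDim (cube d) + 1) ∧
    (∀ N : ℕ, (exceptions N).card ≤ metricDim (cube N)) ∧
    (∀ N : ℕ, ((exceptions N).card : ℝ) * Real.log N ≤ 9 * N) ∧
    Filter.Tendsto (fun N : ℕ => ((exceptions N).card : ℝ) / N) Filter.atTop (nhds 0) :=
  ⟨fun d => ⟨metricDim_le_edge d, edgeMetricDim_le d⟩, exception_shape, exceptions_le,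
    exceptions_log, exceptions_density⟩

end Pool.Agent.Results.MP_41989c_co.DensityOne
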